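import Pool.Agent.Q6.CI.Deck

/-!
# MP_47bc00_co: reconstructing the chromatic index

The chromatic index of `G` is reconstructible if one of the following holds, where `Δ` is the
maximum degree of `G`: (1) some vertex has at most one neighbour of degree `Δ`; (2) some card is not
connected (in particular if `G` is not `2`-connected); (3) some card is not `Δ`-edge-colourable;
(4) `G` has more than `Δ ⌊n / 2⌋` edges. All the hypotheses are on `G` alone; the edge-chromatic number is the
chromatic number of the line graph.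
-/

set_option maxHeartbeats 400000

namespace Pool.Agent.Results.MP_47bc00_co.FewMajorNeighbours

open Pool.Q6.CI Finset

open Classical in
theorem result (n : ℕ) (hn : 3 ≤ n) (G H : SimpleGraph (Fin n))
    (hdeck : ∃ σ : Fin n ≃ Fin n, ∀ v : Fin n,
      Nonempty (G.induce {w : Fin n | w ≠ v} ≃g H.induce {w : Fin n | w ≠ σ v}))
    (h : (∃ v, (univ.filter fun w => G.Adj v w ∧ G.degree w = G.maxDegree).card ≤ 1) ∨
      (∃ v : Fin n, ¬ (G.induce {w : Fin n | w ≠ v}).Connected) ∨
      (∃ v : Fin n, ¬ (G.induce {w : Fin n | w ≠ v}).lineGraph.Colorable G.maxDegree) ∨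
      G.maxDegree * (n / 2) < G.edgeFinset.card) :
    G.lineGraph.chromaticNumber = H.lineGraph.chromaticNumber := by
  obtain ⟨σ, hσ⟩ := hdeck
  have hdg : ∀ v, dg G v = G.degree v := by
    intro v
    unfold dg
    rw [← SimpleGraph.card_neighborFinset_eq_degree, SimpleGraph.neighborFinset_eq_filter]
  have : Nonempty (Fin n) := ⟨⟨0, by omega⟩⟩
  obtain ⟨v₀, hv₀⟩ := G.exists_maximal_degree_vertex
  refine main hn hσ (k := G.maxDegree) (fun v => by rw [hdg]; exact G.degree_le_maxDegree v)
    ⟨v₀, by rw [hdg, hv₀]⟩ ?_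
  intro hb
  rcases h with ⟨v, hv⟩ | ⟨v, hv⟩ | ⟨v, hv⟩ | h
  · have := hb.nb v
    unfold nb at this
    simp_rw [hdg] at this
    omega
  · exact hv (hb.conn v)
  · exact hv (EC.colorable (EC_induce (hb.col v)))
  · have := hb.ovf
    simp_rw [hdg] at this
    rw [G.sum_degrees_eq_twice_card_edges] at this
    have e : G.maxDegree * (2 * (n / 2)) = 2 * (G.maxDegree * (n / 2)) := by ring
    omega

end Pool.Agent.Results.MP_47bc00_co.FewMajorNeighbours
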